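import Pool.Agent.PFC.StmtsB6b
import Pool.Agent.Helper20_PP.Ibr
import Pool.Agent.Helper74_PP.Brt

/-!
# Squad PFC, block B6, row REP: the representation of a central idempotent with one modular
character.
-/

open scoped BigOperators

noncomputable section

namespace Pool.Agent.PFC.H29

open Pool.Agent.Helper51_AWC Pool.Agent.Helper79_WRA Pool.Agent.PP Pool.Agent.PP.KF
open Pool.Agent.PP.K9 Pool.Agent.PP.K9.H97 Pool.Agent.PP.H75 Pool.Agent.PP.T3
open Pool.Agent.PFC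

theorem ev_conj {F H : Type} [Field F] [Group H] [Finite H] {n m : ℕ}
    (ρ : H →* Matrix (Fin n) (Fin n) F) (σ : H →* Matrix (Fin m) (Fin m) F)
    (X : Matrix (Fin m) (Fin n) F) (h : ∀ g, X * ρ g = σ g * X) (a : H → F) :
    X * ev ρ a = ev σ a * X := by
  have := Fintype.ofFinite H
  rw [ev, ev, finsum_eq_sum_of_fintype, finsum_eq_sum_of_fintype, Matrix.mul_sum, Matrix.sum_mul]
  exact Finset.sum_congr rfl fun t _ => by
    rw [Matrix.mul_smul, Matrix.smul_mul, h]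

/-- REP -/
theorem rep : RepStmt := by
  intro ℓ F _ hF H _ _ b hb h1
  rw [ln, Set.ncard_eq_one] at h1
  obtain ⟨f, hf⟩ := h1
  have hfm : f ∈ {f : H → F | f ∈ IBr F H ∧ actF b f = f} := by rw [hf]; rfl
  obtain ⟨⟨N, ρ, hρ, rfl⟩, hact⟩ := hfm
  have hne : tr ρ ≠ 0 := by
    have h := (Pool.Agent.PP.H20.ibf ℓ F hF H).2.ne_zero (⟨tr ρ, N, ρ, hρ, rfl⟩ : IBr F H)
    exact h
  obtain ⟨w, hw1, hw2, _⟩ := Pool.Agent.PP.H20.eig F H N ρ hρ b hb.1
  have hw : w = 1 := by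
    rw [hact] at hw2
    obtain ⟨x, hx⟩ := Function.ne_iff.1 hne
    have h := congrFun hw2 x
    simp only [Pi.smul_apply, smul_eq_mul] at h
    have h2 : (w - 1) * tr ρ x = 0 := by rw [sub_mul, one_mul, ← h, sub_self]
    rcases mul_eq_zero.1 h2 with h3 | h3
    · exact sub_eq_zero.1 h3
    · exact absurd h3 hx
  subst hw
  refine ⟨N, ρ, hρ, by rw [hw1, map_one], ?_, ?_⟩
  · intro a ha h0
    refine Pool.Agent.PP.H20.ibn ℓ F hF H a fun m σ hσ => ?_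
    obtain ⟨v, hv1, hv2, hv3⟩ := Pool.Agent.PP.H20.eig F H m σ hσ b hb.1
    have hm : ev σ a = ev σ b * ev σ a := by rw [← Pool.Agent.PP.H20.ev_mulF, ha]
    rcases hv3 hb with rfl | rfl
    · rw [hm, hv1, map_zero, zero_mul]
    · have ht : tr σ ∈ {f : H → F | f ∈ IBr F H ∧ actF b f = f} :=
        ⟨⟨m, σ, hσ, rfl⟩, by rw [hv2, one_smul]⟩
      rw [hf] at ht
      have ht' : tr ρ = tr σ := (Set.mem_singleton_iff.1 ht).symm
      obtain ⟨X, Y, _, hXY, _, hc⟩ := Pool.Agent.PP.H20.ibc ℓ F hF H N m ρ σ hρ hσ ht'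
      have h2 := ev_conj ρ σ X hc a
      rw [h0, Matrix.mul_zero] at h2
      calc ev σ a = ev σ a * (X * Y) := by rw [hXY, Matrix.mul_one]
        _ = 0 := by rw [← Matrix.mul_assoc, ← h2, Matrix.zero_mul]
  · intro φ hφ hact'
    have hbrt : BrtStmt := Pool.Agent.PP.H74.brt Pool.Agent.PP.H20.ibf Pool.Agent.PP.H20.ibc
      Pool.Agent.PP.H20.ibj Pool.Agent.PP.H20.ibn
    have hrk := Pool.Agent.PP.H74.rnk Pool.Agent.PP.H20.ibf Pool.Agent.PP.H20.eig hbrt ℓ F hF H b hb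
    rw [hf, Set.ncard_singleton, rk] at hrk
    have htr : tr ρ ∈ TT F H ℓ := by
      rw [← hbrt ℓ F hF H]
      exact Submodule.subset_span ⟨N, ρ, hρ, rfl⟩
    have hm1 : tr ρ ∈ (TT F H ℓ).map (actL b) := ⟨tr ρ, htr, hact⟩
    have hm2 : φ ∈ (TT F H ℓ).map (actL b) := ⟨φ, hφ, hact'⟩
    have hne' : (⟨tr ρ, hm1⟩ : (TT F H ℓ).map (actL b)) ≠ 0 := by
      intro h
      exact hne (congrArg Subtype.val h)
    obtain ⟨c, hc⟩ := (finrank_eq_one_iff_of_nonzero' _ hne').1 hrk ⟨φ, hm2⟩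
    exact ⟨c, (congrArg Subtype.val hc).symm⟩

end Pool.Agent.PFC.H29
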