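import Pool.Agent.PFC.StmtsB2

/-!
# Squad PFC, part B2, row THA: the local data of an intertwiner which is not null
-/

noncomputable section

namespace Pool.Agent.PFC.B2.H29

open Pool.Agent.PFC.B1 Pool.Agent.PFC.B2

section
variable {F Γ H : Type} [Field F] [Ring Γ] [Algebra (PowerSeries F) Γ] [Ring H]
    [Algebra (PowerSeries F) H]

theorem x_pow_j (nk : Nk F Γ H) (n : ℕ) (h : H) :
    nk.x ^ n * nk.j h = nk.j ((nk.s)^[n] h) * nk.x ^ n := by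
  induction n with
  | zero => simp
  | succ n ih =>
    rw [Function.iterate_succ_apply', pow_succ', mul_assoc, ih, ← mul_assoc, nk.cm, mul_assoc]

variable {L T : Type} [Field L] [Algebra (PowerSeries F) L] [IsFractionRing (PowerSeries F) L]
  [AddCommGroup T] [Module L T]

omit [IsFractionRing (PowerSeries F) L] in
theorem rp_mul (τ : Rp (PowerSeries F) Γ L T) (a b : Γ) (t : T) :
    τ.ρ (a * b) t = τ.ρ a (τ.ρ b t) := by
  rw [map_mul]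
  rfl

omit [IsFractionRing (PowerSeries F) L] in
theorem x_j (nk : Nk F Γ H) (τ : Rp (PowerSeries F) Γ L T) (n : ℕ) (h : H) (t : T) :
    τ.ρ (nk.x ^ n) (τ.ρ (nk.j h) t) = τ.ρ (nk.j ((nk.s)^[n] h)) (τ.ρ (nk.x ^ n) t) := by
  rw [← rp_mul, x_pow_j, rp_mul]

/-- the kernel of `x ^ n` is stable under `Γ` -/
theorem ker_stb (nk : Nk F Γ H) (τ : Rp (PowerSeries F) Γ L T) (n : ℕ) (γ : Γ) (k : T)
    (hk : τ.ρ (nk.x ^ n) k = 0) : τ.ρ (nk.x ^ n) (τ.ρ γ k) = 0 := by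
  obtain ⟨N, h, hh⟩ := nk.gen γ
  have h1 : (PowerSeries.X : PowerSeries F) ^ N • (nk.x ^ n * γ) =
      (∑ i ∈ Finset.range nk.Q, nk.j ((nk.s)^[n] (h i)) * nk.x ^ i) * nk.x ^ n := by
    rw [← mul_smul_comm, hh, Finset.mul_sum, Finset.sum_mul]
    refine Finset.sum_congr rfl fun i _ => ?_
    rw [← mul_assoc, x_pow_j, mul_assoc, mul_assoc, ← pow_add, ← pow_add, add_comm]
  have h2 : τ.ρ ((PowerSeries.X : PowerSeries F) ^ N • (nk.x ^ n * γ)) k = 0 := by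
    rw [h1, rp_mul, hk, map_zero]
  rw [Algebra.smul_def, rp_mul, τ.sc, rp_mul] at h2
  have h3 : algebraMap (PowerSeries F) L ((PowerSeries.X : PowerSeries F) ^ N) ≠ 0 := by
    intro h0
    have h4 := (IsFractionRing.injective (PowerSeries F) L) (h0.trans (map_zero _).symm)
    exact pow_ne_zero N PowerSeries.X_ne_zero h4
  exact (smul_eq_zero.1 h2).resolve_left h3

end

/-- THA -/
theorem tha (hX : XirStmt) (hC : CrgStmt) : ThaStmt := by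
  classical
  intro F Γ H L T S _ _ _ _ _ _ _ _ _ _ _ _ _ nk τ σ f hσ hf hnul
  have hx : ∀ t, f (τ.ρ nk.x t) = 0 := by
    intro t
    rw [hf, hX F Γ H L S nk σ hσ]
  -- the minimal exponent
  have hP : ∃ n, ∃ t, τ.ρ (nk.x ^ n) t = 0 ∧ f t ≠ 0 := by
    unfold Nul at hnul
    push Not at hnul
    exact ⟨nk.Q - 1, hnul⟩
  obtain ⟨N, hN⟩ : ∃ N, N = Nat.find hP := ⟨_, rfl⟩
  have hN1 : ∃ t, τ.ρ (nk.x ^ N) t = 0 ∧ f t ≠ 0 := by rw [hN]; exact Nat.find_spec hP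
  have hN0 : N ≠ 0 := by
    rintro rfl
    obtain ⟨t, h1, h2⟩ := hN1
    rw [pow_zero, map_one] at h1
    apply h2
    have h3 : t = 0 := h1
    rw [h3, map_zero]
  obtain ⟨m, rfl⟩ : ∃ m, N = m + 1 := ⟨N - 1, by omega⟩
  have hle : m + 1 ≤ nk.Q - 1 := by
    rw [hN]
    apply Nat.find_min'
    unfold Nul at hnul
    push Not at hnul
    exact hnul
  have hQ := nk.hQ
  have hmin : ∀ t, τ.ρ (nk.x ^ m) t = 0 → f t = 0 := by
    intro t ht
    by_contra h0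
    exact Nat.find_min hP (by rw [← hN]; exact Nat.lt_succ_self m) ⟨t, ht, h0⟩
  -- the kernel
  let K : Submodule L T := LinearMap.ker (τ.ρ (nk.x ^ (m + 1)))
  have hK : Stb τ K := fun γ k hk => ker_stb nk τ (m + 1) γ k hk
  have hKf : ∀ y, ∃ k ∈ K, f k = y := by
    have hst : Stb σ (K.map f) := by
      rintro γ _ ⟨k, hk, rfl⟩
      exact ⟨τ.ρ γ k, hK γ k hk, hf γ k⟩
    rcases hσ.2 _ hst with h | h
    · exfalso
      obtain ⟨t, h1, h2⟩ := hN1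
      have h3 : f t ∈ K.map f := ⟨t, h1, rfl⟩
      rw [h] at h3
      exact h2 h3
    · intro y
      have h3 : y ∈ K.map f := by rw [h]; trivial
      exact h3
  let K0 : Submodule L T := K ⊓ LinearMap.ker f
  have hK0 : Stb (τ.res nk.j) K0 := by
    intro h k hk
    refine ⟨hK (nk.j h) k hk.1, ?_⟩
    have h1 : f k = 0 := hk.2
    change f (τ.ρ (nk.j h) k) = 0
    rw [hf, h1, map_zero]
  obtain ⟨p, hp1, hp2, hp3⟩ := hC.1 F Γ H L T nk (τ.res nk.j) K0 hK0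
  let W : Submodule L T := K ⊓ LinearMap.ker p
  have hWs : ∀ h, ∀ w ∈ W, τ.ρ (nk.j h) w ∈ W := by
    intro h w hw
    refine ⟨hK (nk.j h) w hw.1, ?_⟩
    have h1 : p w = 0 := hw.2
    have h2 : p (τ.ρ (nk.j h) w) = τ.ρ (nk.j h) (p w) := hp1 h w
    change p (τ.ρ (nk.j h) w) = 0
    rw [h2, h1, map_zero]
  have hWK : ∀ w ∈ W, τ.ρ (nk.x ^ (m + 1)) w = 0 := fun w hw => hw.1
  have hWf : ∀ y, ∃ w ∈ W, f w = y := by
    intro y
    obtain ⟨k, hk, rfl⟩ := hKf y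
    refine ⟨k - p k, ⟨K.sub_mem hk (hp2 k).1, ?_⟩, ?_⟩
    · change p (k - p k) = 0
      rw [map_sub, hp3 _ (hp2 k), sub_self]
    · have h1 : f (p k) = 0 := (hp2 k).2
      rw [map_sub, h1, sub_zero]
  have hWi : ∀ w ∈ W, f w = 0 → w = 0 := by
    intro w hw hw0
    have h1 : p w = w := hp3 w ⟨hw.1, hw0⟩
    rw [← h1]
    exact hw.2
  -- injectivity
  have hWx : ∀ w ∈ W, ∀ z, τ.ρ (nk.x ^ m) w = τ.ρ (nk.x ^ (m + 1)) z → w = 0 := by
    intro w hw z hz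
    have h1 : τ.ρ (nk.x ^ m) (w - τ.ρ nk.x z) = 0 := by
      rw [map_sub, hz, pow_succ, rp_mul, sub_self]
    have h2 := hmin _ h1
    rw [map_sub, hx, sub_zero] at h2
    exact hWi w hw h2
  -- the projections
  have hB : Stb (τ.res nk.j) (LinearMap.range (τ.ρ (nk.x ^ (m + 1)))) := by
    rintro h _ ⟨z, rfl⟩
    obtain ⟨h', rfl⟩ := (nk.s.surjective.iterate (m + 1)) h
    exact ⟨τ.ρ (nk.j h') z, x_j nk τ (m + 1) h' z⟩
  obtain ⟨q, hq1, hq2, hq3⟩ := hC.1 F Γ H L T nk (τ.res nk.j) _ hB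
  have hq1' : ∀ h t, q (τ.ρ (nk.j h) t) = τ.ρ (nk.j h) (q t) := hq1
  let G : T →ₗ[L] T := (LinearMap.id - q) ∘ₗ τ.ρ (nk.x ^ m)
  have hG : ∀ t, G t = τ.ρ (nk.x ^ m) t - q (τ.ρ (nk.x ^ m) t) := fun t => rfl
  have hGj : ∀ h t, G (τ.ρ (nk.j h) t) = τ.ρ (nk.j ((nk.s)^[m] h)) (G t) := by
    intro h t
    rw [hG, hG, x_j, hq1', map_sub]
  have hGi : ∀ w ∈ W, G w = 0 → w = 0 := by
    intro w hw h0
    rw [hG, sub_eq_zero] at h0
    obtain ⟨z, hz⟩ := hq2 (τ.ρ (nk.x ^ m) w)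
    exact hWx w hw z (h0.trans hz.symm)
  have hA : Stb (τ.res nk.j) (W.map G) := by
    rintro h _ ⟨w, hw, rfl⟩
    obtain ⟨h', rfl⟩ := (nk.s.surjective.iterate m) h
    exact ⟨τ.ρ (nk.j h') w, hWs h' w hw, hGj h' w⟩
  obtain ⟨q', hq1, hr2, hr3⟩ := hC.1 F Γ H L T nk (τ.res nk.j) _ hA
  have hr1 : ∀ h t, q' (τ.ρ (nk.j h) t) = τ.ρ (nk.j h) (q' t) := hq1
  -- the inverse of `G` on `W`
  obtain ⟨g', hg'⟩ := LinearMap.exists_leftInverse_of_injective (G ∘ₗ W.subtype) (by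
    rw [LinearMap.ker_eq_bot']
    intro w hw
    exact Subtype.ext (hGi w.1 w.2 hw))
  have hg : ∀ w (hw : w ∈ W), (g' (G w) : T) = w := by
    intro w hw
    have h1 := LinearMap.congr_fun hg' ⟨w, hw⟩
    exact congrArg Subtype.val h1
  let ψ : T →ₗ[L] T := W.subtype ∘ₗ g' ∘ₗ q' ∘ₗ (LinearMap.id - q)
  have hψ : ∀ t, ψ t = (g' (q' (t - q t)) : T) := fun t => rfl
  have hψW : ∀ t, ψ t ∈ W := fun t => (g' (q' (t - q t))).2
  have hGψ : ∀ t, G (ψ t) = q' (t - q t) := by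
    intro t
    obtain ⟨w, hw, hw2⟩ := hr2 (t - q t)
    rw [hψ, ← hw2, hg w hw]
  have hinj : ∀ w ∈ W, ∀ w' ∈ W, G w = G w' → w = w' := by
    intro w hw w' hw' h
    rw [← sub_eq_zero]
    exact hGi _ (W.sub_mem hw hw') (by rw [map_sub, h, sub_self])
  refine ⟨m, W, ψ, by omega, hWs, hWK, hWf, hWi, hψW, ?_, ?_, ?_⟩
  · intro t
    apply hGi _ (hψW _)
    rw [hGψ, hq3 _ ⟨t, rfl⟩, sub_self, map_zero]
  · intro w hw
    apply hinj _ (hψW _) _ hw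
    rw [hGψ]
    exact hr3 _ ⟨w, hw, rfl⟩
  · intro h t
    apply hinj _ (hψW _) _ (hWs h _ (hψW t))
    rw [hGψ, hGj, hGψ, hq1', ← map_sub, hr1]

end Pool.Agent.PFC.B2.H29
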